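import Pool.Agent.helper44.NLT.Spec

set_option autoImplicit false

open Complex Metric Set Filter Topology MeasureTheory MPS
open Pool.Agent.helper98.ILF Pool.Agent.helper16.Multibrot

noncomputable section

namespace NLT

theorem BAI : BAI_stmt := by
  intro F α c c₂ r ε hε hsub hF hα hex
  set E : Option ℕ → Set ℂ := fun i =>
    match i with
    | none => (ball c₂ ε)ᶜ
    | some k => closedBall c₂ ε ∩ (fun x => F k x - α x) ⁻¹' {0} with hE
  have hcl : ∀ i, IsClosed (E i) := by
    intro i
    match i with
    | none => exact isOpen_ball.isClosed_compl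
    | some k =>
      have h1 : ContinuousOn (fun x => F k x - α x) (closedBall c₂ ε) :=
        ((hF k).continuousOn.mono hsub).sub (hα.continuousOn.mono hsub)
      exact h1.preimage_isClosed_of_isClosed isClosed_closedBall isClosed_singleton
  have hun : ⋃ i, E i = univ := by
    rw [eq_univ_iff_forall]
    intro x
    rw [mem_iUnion]
    by_cases hx : x ∈ ball c₂ ε
    · obtain ⟨k, hk⟩ := hex x (ball_subset_closedBall hx)
      refine ⟨some k, ball_subset_closedBall hx, ?_⟩
      simp [hk]
    · exact ⟨none, hx⟩
  have hd := dense_iUnion_interior_of_closed hcl hun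
  obtain ⟨y, hy, hy2⟩ := hd.inter_open_nonempty (ball c₂ ε) isOpen_ball ⟨c₂, mem_ball_self hε⟩
  rw [mem_iUnion] at hy2
  obtain ⟨i, hi⟩ := hy2
  match i with
  | none =>
    exact absurd hy (interior_subset hi)
  | some k =>
    refine ⟨k, ?_⟩
    have hev : F k =ᶠ[𝓝 y] α := by
      have h1 : E (some k) ∈ 𝓝 y := mem_interior_iff_mem_nhds.1 hi
      filter_upwards [h1] with x hx
      have h2 : F k x - α x = 0 := hx.2
      exact sub_eq_zero.1 h2
    have hyb : y ∈ ball c r := hsub (ball_subset_closedBall hy)
    exact ((hF k).analyticOnNhd isOpen_ball).eqOn_of_preconnected_of_eventuallyEq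
      (hα.analyticOnNhd isOpen_ball) (convex_ball c r).isPreconnected hyb hev

end NLT
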